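import Mathlib
import Pool.Agent.H40RT.AlgMain

/-!
# Lisse sheaves with Frobenius traces which are algebraic over the point counts of a variety

Let `X` be a smooth irreducible variety over a finite field, `K` its function field and `ρ` the representation given by
an irreducible lisse sheaf on `X` which remains irreducible on all connected finite étale coverings.  Let `V_1, ..., V_s`
be Tate twists of the cohomology groups of an algebraic variety over `K`; they are unramified on a dense open subset `U`
of `X`, and the `V_j` and `ρ` are representations of the compact group `Γ = π₁(U)`.  The numbers of points of the fibres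
of the variety at the closed points of `U` over extensions of the residue fields are polynomials in the coefficients of
the Frobenius polynomials of the `V_j`, for suitable `V_j`.

We show: if the Frobenius traces of `ρ` are roots of a polynomial `P(T)` of degree `k`, not zero, with coefficients
which are polynomials in the coefficients of the Frobenius polynomials of the `V_j`, for closed points in a set which is
not of density zero, then there is a natural number `e`, `1 ≤ e ≤ k`, such that all irreducible subquotients of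
`ρ ^ {⊗ a} ⊗ (ρ dual) ^ {⊗ b}` with `a ≡ b` modulo `e` are subquotients of tensor products of copies of
`V_1 ⊕ ... ⊕ V_s`, of its dual and of a representation with finite image.  For `k = 1` this is so for `ρ` itself.  The
bound `e ≤ k` is the best possible: for `V = Sym² ρ`, with `ρ` of dimension two and of determinant one, the trace of `ρ`
is a square root of `1 + tr V`, and `e = 2`.
-/

set_option autoImplicit false

namespace Pool.Agent.Results.MP_80bee4_ag.AlgebraicTraces

open Matrix MeasureTheory

/-- A representation in matrices is irreducible: its dimension is positive, and it has no stable subspace other than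
zero and the whole space. -/
def IsIrreducible {Γ F : Type} [Group Γ] [Field F] {n : ℕ} (ρ : Γ →* Matrix (Fin n) (Fin n) F) : Prop :=
  0 < n ∧ ∀ U : Submodule F (Fin n → F), (∀ g, ∀ u ∈ U, ρ g *ᵥ u ∈ U) → U = ⊥ ∨ U = ⊤

/-- `ρ` is isomorphic to a subquotient of `T`: there are a stable subspace `U` of `T` and an equivariant linear
surjection from `U` to `ρ`. -/
def IsSubquotient {Γ F I : Type} [Group Γ] [Field F] [Fintype I] [DecidableEq I] {n : ℕ}
    (T : Γ →* Matrix I I F) (ρ : Γ →* Matrix (Fin n) (Fin n) F) : Prop :=
  ∃ (U : Submodule F (I → F)) (π : U →ₗ[F] (Fin n → F)), Function.Surjective π ∧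
    ∀ (g : Γ) (u : U), ∃ h : T g *ᵥ (u : I → F) ∈ U, π ⟨T g *ᵥ (u : I → F), h⟩ = ρ g *ᵥ π u

/-- The direct sum of the representations `V j`. -/
def sumRep {Γ F : Type} [Group Γ] [Field F] {s : ℕ} {N : Fin s → ℕ} (V : ∀ j, Γ →* Matrix (Fin (N j)) (Fin (N j)) F) :
    Γ →* Matrix (Σ j, Fin (N j)) (Σ j, Fin (N j)) F where
  toFun g := Matrix.blockDiagonal' fun j => V j g
  map_one' := (Pool.Agent.H40LT.blk V).map_one
  map_mul' := (Pool.Agent.H40LT.blk V).map_mul

/-- The direct sum of `V` and `ρ`. -/
def directSum {Γ F I : Type} [Group Γ] [Field F] [Fintype I] [DecidableEq I] {n : ℕ} (V : Γ →* Matrix I I F)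
    (ρ : Γ →* Matrix (Fin n) (Fin n) F) : Γ →* Matrix (I ⊕ Fin n) (I ⊕ Fin n) F where
  toFun g := Matrix.fromBlocks (V g) 0 0 (ρ g)
  map_one' := by rw [map_one, map_one, Matrix.fromBlocks_one]
  map_mul' g g' := by
    rw [Matrix.fromBlocks_multiply, map_mul, map_mul]
    simp

/-- The tensor product of `a` copies of `V` and `b` copies of its dual, in the coordinates given by the standard
basis. -/
def tensorRep {Γ F I : Type} [Group Γ] [Field F] [Fintype I] [DecidableEq I] (V : Γ →* Matrix I I F) (a b : ℕ) :
    Γ →* Matrix ((Fin a → I) × (Fin b → I)) ((Fin a → I) × (Fin b → I)) F where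
  toFun g := Matrix.of fun p q => (∏ s, V g (p.1 s) (q.1 s)) * ∏ t, V g⁻¹ (q.2 t) (p.2 t)
  map_one' := by
    have h := (Pool.Agent.H40GO.tens V 1 a b 0).map_one
    rw [← h]
    ext p q
    simp [Pool.Agent.H40GO.tens]
  map_mul' g g' := by
    have h := (Pool.Agent.H40GO.tens V 1 a b 0).map_mul g g'
    have h1 : ∀ x, Pool.Agent.H40GO.tens V 1 a b 0 x =
        Matrix.of fun p q => (∏ s, V x (p.1 s) (q.1 s)) * ∏ t, V x⁻¹ (q.2 t) (p.2 t) := by
      intro x
      ext p q
      simp [Pool.Agent.H40GO.tens]
    rw [h1, h1, h1] at h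
    exact h

/-- The tensor product of `T` and `θ`, in the coordinates given by the standard bases. -/
def tensorProduct {Γ F I : Type} [Group Γ] [Field F] [Fintype I] [DecidableEq I] {d : ℕ} (T : Γ →* Matrix I I F)
    (θ : Γ →* Matrix (Fin d) (Fin d) F) : Γ →* Matrix (I × Fin d) (I × Fin d) F where
  toFun g := Matrix.of fun p q => T g p.1 q.1 * θ g p.2 q.2
  map_one' := (Pool.Agent.H40LT.tprod T θ).map_one
  map_mul' := (Pool.Agent.H40LT.tprod T θ).map_mul

/-- The monodromy of `T` is connected: every polynomial in the entries of the matrices which vanishes on an open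
subgroup vanishes on the whole group.  So the image of every open subgroup has the same Zariski closure. -/
def HasConnectedMonodromy {Γ F I : Type} [Group Γ] [TopologicalSpace Γ] [Field F] [Fintype I] [DecidableEq I]
    (T : Γ →* Matrix I I F) : Prop :=
  ∀ D : Subgroup Γ, IsOpen (D : Set Γ) → ∀ P : MvPolynomial (I × I) F,
    (∀ x ∈ D, MvPolynomial.eval (fun q => T x q.1 q.2) P = 0) →
    ∀ x, MvPolynomial.eval (fun q => T x q.1 q.2) P = 0

/-- A set of elements of the compact group `Γ` is small if it is contained in a closed set of Haar measure zero which is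
stable under conjugation. -/
def IsSmall {Γ : Type} [Group Γ] [TopologicalSpace Γ] [IsTopologicalGroup Γ] [CompactSpace Γ] [MeasurableSpace Γ]
    [BorelSpace Γ] (A : Set Γ) : Prop :=
  ∃ Z : Set Γ, IsClosed Z ∧ Measure.haar Z = 0 ∧ (∀ x ∈ Z, ∀ τ, τ * x * τ⁻¹ ∈ Z) ∧ A ⊆ Z

/-- The polynomial in one variable which is obtained from `P`, a polynomial with coefficients which are polynomials in
the variables `y_(j, i)`, if `y_(j, i)` is replaced by the coefficient of `X ^ i` in the characteristic polynomial of
`V j σ`. -/
noncomputable def polyAt {Γ F : Type} [Group Γ] [Field F] {s : ℕ} {N : Fin s → ℕ}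
    (V : ∀ j, Γ →* Matrix (Fin (N j)) (Fin (N j)) F) (P : Polynomial (MvPolynomial (Fin s × ℕ) F)) (σ : Γ) :
    Polynomial F :=
  P.map (MvPolynomial.eval fun p => (V p.1 σ).charpoly.coeff p.2)

/-- **Theorem.** Let `Γ` be a compact group, `V_1, ..., V_s` and `ρ` continuous representations of `Γ` over the
algebraic closure of `ℚ_ℓ`, with `ρ` irreducible on every open subgroup, and let `P` be a polynomial with coefficients
which are polynomials in the coefficients of the characteristic polynomials of the `V_j`.  Suppose that the set of the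
`σ` is not small for which the value of `P` at `σ` is not zero and has the trace of `ρ σ` as a root.  Then there is a
natural number `e`, positive and at most the degree of `P`, such that for all `a ≡ b` modulo `e` every irreducible
subquotient of the tensor product of `a` copies of `ρ` and `b` copies of its dual is a subquotient of a tensor product
of copies of `V_1 ⊕ ... ⊕ V_s`, of its dual and of a continuous representation with finite image, which is trivial of
dimension one if the monodromy of `V_1 ⊕ ... ⊕ V_s ⊕ ρ` is connected. -/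
theorem result (ℓ : ℕ) [Fact ℓ.Prime] (Γ : Type) [Group Γ] [TopologicalSpace Γ] [IsTopologicalGroup Γ] [CompactSpace Γ]
    [MeasurableSpace Γ] [BorelSpace Γ] (s n : ℕ) (N : Fin s → ℕ)
    (V : ∀ j, Γ →* Matrix (Fin (N j)) (Fin (N j)) (PadicAlgCl ℓ)) (ρ : Γ →* Matrix (Fin n) (Fin n) (PadicAlgCl ℓ))
    (hV : ∀ j, Continuous (V j)) (hρ : Continuous ρ)
    (hirr : ∀ D : Subgroup Γ, IsOpen (D : Set Γ) → IsIrreducible (ρ.comp D.subtype))
    (P : Polynomial (MvPolynomial (Fin s × ℕ) (PadicAlgCl ℓ)))
    (h : ¬ IsSmall {σ | polyAt V P σ ≠ 0 ∧ (polyAt V P σ).IsRoot (ρ σ).trace}) :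
    ∃ e : ℕ, 1 ≤ e ∧ e ≤ P.natDegree ∧ ∀ a b : ℕ, a ≡ b [MOD e] →
      ∀ (m : ℕ) (r : Γ →* Matrix (Fin m) (Fin m) (PadicAlgCl ℓ)), IsIrreducible r →
        IsSubquotient (tensorRep ρ a b) r →
        ∃ (a' b' d : ℕ) (θ : Γ →* Matrix (Fin d) (Fin d) (PadicAlgCl ℓ)), Continuous θ ∧ (Set.range θ).Finite ∧
          (HasConnectedMonodromy (directSum (sumRep V) ρ) → d = 1 ∧ ∀ x, θ x = 1) ∧
          IsSubquotient (tensorProduct (tensorRep (sumRep V) a' b') θ) r := by
  have hT : ∀ {I : Type} [Fintype I] [DecidableEq I] (U : Γ →* Matrix I I (PadicAlgCl ℓ)) (a b : ℕ),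
      tensorRep U a b = Pool.Agent.H40GO.tens U 1 a b 0 := by
    intro I _ _ U a b
    ext x p q
    simp [tensorRep, Pool.Agent.H40GO.tens]
  obtain ⟨e, he1, he2, he⟩ := Pool.Agent.H40RT.alg_main (Measure.haar : Measure Γ) V ρ hV hρ
    (fun D hD => ⟨⟨⟨0, (hirr D hD).1⟩⟩, (hirr D hD).2⟩) P P.natDegree le_rfl h
  refine ⟨e, he1, he2, fun a b hab m r hr hsub => ?_⟩
  rw [hT] at hsub
  obtain ⟨a', b', d, θ, h1, h2, h3, h4⟩ := he a b hab m r ⟨⟨⟨0, hr.1⟩⟩, hr.2⟩ hsub
  refine ⟨a', b', d, θ, h1, h2, fun hc => h3 ?_, ?_⟩
  · intro D hD _ P hP x _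
    exact hc D hD P hP x
  · rw [hT]
    exact h4

end Pool.Agent.Results.MP_80bee4_ag.AlgebraicTraces
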