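import Mathlib
import Pool.Agent.H40LT.HalfNull

/-!
# Lisse sheaves, at least half of whose Frobenius eigenvalues come from a variety

Let `X` be a smooth irreducible variety over a finite field, `K` its function field and `ρ` the representation given by
an irreducible lisse sheaf on `X`, of rank `n`.  Let `V` be a Tate twist of the cohomology of an algebraic variety over
`K`; it is unramified on a dense open subset `U` of `X`, and `V` and `ρ` are representations of the compact group
`Γ = π₁(U)`.  The Frobenius elements at the closed points of `U` are dense in `Γ`, and those in a closed set of Haar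
measure zero which is stable under conjugation are at the points of a set of density zero.  We show that `ρ` is a
subquotient of a tensor product of copies of `V` and of its dual, so that it comes from the cohomology of a power of the
variety, if and only if at least `n / 2` of the `n` Frobenius eigenvalues of `ρ` are quotients of products of boundedly
many Frobenius eigenvalues of `V`, for closed points in a set which is not of density zero (in every class of the Galois
group of the covering of `U` where the monodromy becomes connected).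
-/

set_option autoImplicit false

namespace Pool.Agent.Results.MP_80bee4_ag.HalfOfEigenvalues

open Matrix MeasureTheory

/-- A representation in matrices is irreducible: its dimension is positive, and it has no stable subspace other than
zero and the whole space. -/
def IsIrreducible {Γ E : Type} [Group Γ] [Field E] {n : ℕ} (ρ : Γ →* Matrix (Fin n) (Fin n) E) : Prop :=
  0 < n ∧ ∀ U : Submodule E (Fin n → E), (∀ g, ∀ u ∈ U, ρ g *ᵥ u ∈ U) → U = ⊥ ∨ U = ⊤

/-- `ρ` is isomorphic to a subquotient of `T`: there are a stable subspace `U` of `T` and an equivariant linear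
surjection from `U` to `ρ`. -/
def IsSubquotient {Γ E I : Type} [Group Γ] [Field E] [Fintype I] [DecidableEq I] {n : ℕ}
    (T : Γ →* Matrix I I E) (ρ : Γ →* Matrix (Fin n) (Fin n) E) : Prop :=
  ∃ (U : Submodule E (I → E)) (π : U →ₗ[E] (Fin n → E)), Function.Surjective π ∧
    ∀ (g : Γ) (u : U), ∃ h : T g *ᵥ (u : I → E) ∈ U, π ⟨T g *ᵥ (u : I → E), h⟩ = ρ g *ᵥ π u

/-- The tensor product of `a` copies of `V` and `b` copies of its dual, in the coordinates given by the standard
basis. -/
def tensorRep {Γ E : Type} [Group Γ] [Field E] {N : ℕ} (V : Γ →* Matrix (Fin N) (Fin N) E) (a b : ℕ) :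
    Γ →* Matrix ((Fin a → Fin N) × (Fin b → Fin N)) ((Fin a → Fin N) × (Fin b → Fin N)) E where
  toFun g := Matrix.of fun p q => (∏ s, V g (p.1 s) (q.1 s)) * ∏ t, V g⁻¹ (q.2 t) (p.2 t)
  map_one' := by
    have h := (Pool.Agent.H40GO.tens V 1 a b 0).map_one
    rw [← h]
    ext p q
    simp [Pool.Agent.H40GO.tens]
  map_mul' g g' := by
    have h := (Pool.Agent.H40GO.tens V 1 a b 0).map_mul g g'
    have h1 : ∀ x, Pool.Agent.H40GO.tens V 1 a b 0 x =
        Matrix.of fun p q => (∏ s, V x (p.1 s) (q.1 s)) * ∏ t, V x⁻¹ (q.2 t) (p.2 t) := by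
      intro x
      ext p q
      simp [Pool.Agent.H40GO.tens]
    rw [h1, h1, h1] at h
    exact h

/-- The direct sum of `V` and `ρ`. -/
def directSum {Γ E : Type} [Group Γ] [Field E] {N n : ℕ} (V : Γ →* Matrix (Fin N) (Fin N) E)
    (ρ : Γ →* Matrix (Fin n) (Fin n) E) : Γ →* Matrix (Fin N ⊕ Fin n) (Fin N ⊕ Fin n) E where
  toFun g := Matrix.fromBlocks (V g) 0 0 (ρ g)
  map_one' := by rw [map_one, map_one, Matrix.fromBlocks_one]
  map_mul' g g' := by
    rw [Matrix.fromBlocks_multiply, map_mul, map_mul]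
    simp

variable {ℓ : ℕ} [Fact ℓ.Prime] {E : IntermediateField ℚ_[ℓ] (PadicAlgCl ℓ)}

/-- The monodromy of `T` is connected: every polynomial over the algebraic closure of `ℚ_ℓ` in the entries of the
matrices which vanishes on an open subgroup vanishes on the whole group.  So the image of every open subgroup has the
same Zariski closure. -/
def HasConnectedMonodromy {Γ I : Type} [Group Γ] [TopologicalSpace Γ] [Fintype I] [DecidableEq I]
    (T : Γ →* Matrix I I E) : Prop :=
  ∀ D : Subgroup Γ, IsOpen (D : Set Γ) → ∀ P : MvPolynomial (I × I) (PadicAlgCl ℓ),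
    (∀ x ∈ D, MvPolynomial.eval (fun q => (T x q.1 q.2 : PadicAlgCl ℓ)) P = 0) →
    ∀ x, MvPolynomial.eval (fun q => (T x q.1 q.2 : PadicAlgCl ℓ)) P = 0

/-- A set of elements of the compact group `Γ` is small if it is contained in a closed set of Haar measure zero which is
stable under conjugation. -/
def IsSmall {Γ : Type} [Group Γ] [TopologicalSpace Γ] [IsTopologicalGroup Γ] [CompactSpace Γ] [MeasurableSpace Γ]
    [BorelSpace Γ] (A : Set Γ) : Prop :=
  ∃ Z : Set Γ, IsClosed Z ∧ Measure.haar Z = 0 ∧ (∀ x ∈ Z, ∀ τ, τ * x * τ⁻¹ ∈ Z) ∧ A ⊆ Z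

/-- The eigenvalues of the matrix `M` over `E` in the algebraic closure of `ℚ_ℓ`, with their (algebraic)
multiplicities. -/
noncomputable def eigenvalues {n : ℕ} (M : Matrix (Fin n) (Fin n) E) : Multiset (PadicAlgCl ℓ) :=
  (M.charpoly.map (algebraMap E (PadicAlgCl ℓ))).roots

/-- `z` is a product of at most `B` eigenvalues of `M`, divided by a product of at most `B` eigenvalues of `M`. -/
def IsMonomial {N : ℕ} (B : ℕ) (M : Matrix (Fin N) (Fin N) E) (z : PadicAlgCl ℓ) : Prop :=
  ∃ a ≤ B, ∃ b ≤ B, ∃ (α : Fin a → PadicAlgCl ℓ) (β : Fin b → PadicAlgCl ℓ),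
    (∀ i, α i ∈ eigenvalues M) ∧ (∀ j, β j ∈ eigenvalues M) ∧ z * ∏ j, β j = ∏ i, α i

open scoped Classical in
/-- **Theorem.** Let `Γ` be a compact group, `S` a dense subset (the Frobenius elements), `V` and `ρ` continuous
representations of `Γ` over a subfield `E` of the algebraic closure of `ℚ_ℓ`, with `ρ` irreducible of dimension `n`.
There is an open normal subgroup `U` of `Γ`, equal to `Γ` if the monodromy of the direct sum of `V` and `ρ` is connected,
with the following property.  `ρ` is a subquotient of a tensor product of copies of `V` and of its dual if and only if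
there is `B` such that for every `g` in `Γ` the set of the `σ` in `S ∩ g U` such that at least `n / 2` of the eigenvalues
of `ρ σ`, counted with multiplicity, are quotients of products of at most `B` eigenvalues of `V σ` is not small. -/
theorem result (ℓ : ℕ) [Fact ℓ.Prime] (E : IntermediateField ℚ_[ℓ] (PadicAlgCl ℓ))
    (Γ : Type) [Group Γ] [TopologicalSpace Γ] [IsTopologicalGroup Γ] [CompactSpace Γ] [MeasurableSpace Γ]
    [BorelSpace Γ] (S : Set Γ) (hS : Dense S) (N n : ℕ)
    (V : Γ →* Matrix (Fin N) (Fin N) E) (ρ : Γ →* Matrix (Fin n) (Fin n) E)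
    (hV : Continuous V) (hρ : Continuous ρ) (hirr : IsIrreducible ρ) :
    ∃ U : Subgroup Γ, U.Normal ∧ IsOpen (U : Set Γ) ∧ (HasConnectedMonodromy (directSum V ρ) → U = ⊤) ∧
      ((∃ a b : ℕ, IsSubquotient (tensorRep V a b) ρ) ↔
        ∃ B : ℕ, ∀ g : Γ, ¬ IsSmall {σ | σ ∈ S ∧ g⁻¹ * σ ∈ U ∧
          n ≤ 2 * Multiset.card ((eigenvalues (ρ σ)).filter (IsMonomial B (V σ)))}) := by
  have hFG : Continuous (algebraMap E (PadicAlgCl ℓ)) := continuous_subtype_val
  have halg : Algebra.IsAlgebraic E (PadicAlgCl ℓ) := Algebra.IsAlgebraic.tower_top (K := ℚ_[ℓ]) E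
  have hcl : IsAlgClosure E (PadicAlgCl ℓ) := ⟨inferInstance, halg⟩
  have hgal : IsGalois E (PadicAlgCl ℓ) := inferInstance
  have hT : ∀ (a b : ℕ), tensorRep V a b = Pool.Agent.H40GO.tens V 1 a b 0 := by
    intro a b
    ext x p q
    simp [tensorRep, Pool.Agent.H40GO.tens]
  have hev : ∀ {m : ℕ} (U : Γ →* Matrix (Fin m) (Fin m) E) (σ : Γ),
      eigenvalues (U σ) = (Pool.Agent.H40GO.bc (PadicAlgCl ℓ) U σ).charpoly.roots := by
    intro m U σ
    rw [Pool.Agent.H40GO.bc_charpoly]
    rfl
  have hroot : ∀ (σ : Γ) (w : PadicAlgCl ℓ), w ∈ eigenvalues (V σ) ↔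
      (Pool.Agent.H40GO.bc (PadicAlgCl ℓ) V σ).charpoly.IsRoot w := by
    intro σ w
    rw [hev, Polynomial.mem_roots (Matrix.charpoly_monic _).ne_zero]
  have hgood : ∀ (B : ℕ) (σ : Γ) (z : PadicAlgCl ℓ), IsMonomial B (V σ) z ↔
      (Pool.Agent.H40GO.bigPoly (Pool.Agent.H40GO.bc (PadicAlgCl ℓ) V) B σ).IsRoot z := by
    intro B σ z
    unfold IsMonomial
    simp only [Pool.Agent.H40GO.bigPoly_root, hroot]
  have hcard : ∀ (B : ℕ) (σ : Γ), (eigenvalues (ρ σ)).filter (IsMonomial B (V σ)) =
      (Pool.Agent.H40GO.bc (PadicAlgCl ℓ) ρ σ).charpoly.roots.filter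
        (fun z => (Pool.Agent.H40GO.bigPoly (Pool.Agent.H40GO.bc (PadicAlgCl ℓ) V) B σ).IsRoot z) := by
    intro B σ
    rw [hev]
    exact Multiset.filter_congr fun z _ => hgood B σ z
  simp only [hT, hcard]
  obtain ⟨U, hU1, hU2, hU3, hU4⟩ := Pool.Agent.H40LT.half_iff_null (G := PadicAlgCl ℓ) hFG Measure.haar S hS N n V ρ
    hV hρ ⟨⟨⟨0, hirr.1⟩⟩, hirr.2⟩
  refine ⟨U, hU1, hU2, fun h => hU3 ?_, hU4⟩
  intro D hD _ P hP x _
  exact h D hD P hP x

end Pool.Agent.Results.MP_80bee4_ag.HalfOfEigenvalues
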