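import Mathlib
import Pool.Agent.H60OE.MeanMain
import Pool.Agent.H60OE.FrobU

/-!
# Lisse sheaves with one Frobenius eigenvalue which comes from a variety

Let `X` be a smooth irreducible variety over a finite field, `K` its function field and `r` the representation given by
an irreducible lisse sheaf on `X`.  Let `V` be a Tate twist of the cohomology of an algebraic variety over `K`; it is
unramified on a dense open subset `U` of `X`, and `V` and `r` are representations of the compact group `Γ = π₁(U)`.  The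
Frobenius elements at the closed points of `U` which are in a closed set of Haar measure zero stable under conjugation
are at the points of a set of density zero.  A number is good at a closed point if it is the product of a root of unity
and of integral powers of Frobenius eigenvalues of `V`.  We show that `r` comes from `V`, up to a twist with finite
image, as soon as, for closed points in a set which is not of density zero (and which split in the covering of `U` where
the monodromy becomes connected), one Frobenius eigenvalue of `r` is good and is not the geometric mean of two Frobenius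
eigenvalues of `r` which are not good.  For example it is enough that all the Frobenius eigenvalues of `r` of largest
slope are good.  No bound on the root of unity and on the integral powers is needed: the theorem holds for the elements
`s` of `Γ` for which the eigenvalues of `V s` and `r s` have the properties which are known for the Frobenius
eigenvalues (bounded degree over `ℚ`, integral and bounded weights, units outside the characteristic, bounded slopes
with bounded denominators).
-/

set_option autoImplicit false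

namespace Pool.Agent.Results.MP_80bee4_ag.OneEigenvalue

open Matrix MeasureTheory

/-- A representation in matrices is irreducible: its dimension is positive, and it has no stable subspace other than
zero and the whole space. -/
def IsIrreducible {Γ E : Type} [Group Γ] [Field E] {n : ℕ} (r : Γ →* Matrix (Fin n) (Fin n) E) : Prop :=
  0 < n ∧ ∀ U : Submodule E (Fin n → E), (∀ g, ∀ u ∈ U, r g *ᵥ u ∈ U) → U = ⊥ ∨ U = ⊤

/-- `r` is isomorphic to a subquotient of `T`: there are a stable subspace `U` of `T` and an equivariant linear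
surjection from `U` to `r`. -/
def IsSubquotient {Γ E I : Type} [Group Γ] [Field E] [Fintype I] [DecidableEq I] {n : ℕ}
    (T : Γ →* Matrix I I E) (r : Γ →* Matrix (Fin n) (Fin n) E) : Prop :=
  ∃ (U : Submodule E (I → E)) (π : U →ₗ[E] (Fin n → E)), Function.Surjective π ∧
    ∀ (g : Γ) (u : U), ∃ h : T g *ᵥ (u : I → E) ∈ U, π ⟨T g *ᵥ (u : I → E), h⟩ = r g *ᵥ π u

/-- The tensor product of `a` copies of `V`, `b` copies of its dual and of `θ`, in the coordinates given by the standard
basis. -/
def tensorRep {Γ E : Type} [Group Γ] [Field E] {N d : ℕ} (V : Γ →* Matrix (Fin N) (Fin N) E) (a b : ℕ)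
    (θ : Γ →* Matrix (Fin d) (Fin d) E) :
    Γ →* Matrix (((Fin a → Fin N) × (Fin b → Fin N)) × Fin d) (((Fin a → Fin N) × (Fin b → Fin N)) × Fin d) E where
  toFun g := Matrix.of fun p q =>
    (∏ s, V g (p.1.1 s) (q.1.1 s)) * (∏ t, V g⁻¹ (q.1.2 t) (p.1.2 t)) * θ g p.2 q.2
  map_one' := by
    have h := (Pool.Agent.H40LT.tprod (Pool.Agent.H40GO.tens V 1 a b 0) θ).map_one
    rw [← h]
    ext p q
    simp [Pool.Agent.H40LT.tprod, Pool.Agent.H40GO.tens]
  map_mul' g g' := by
    have h := (Pool.Agent.H40LT.tprod (Pool.Agent.H40GO.tens V 1 a b 0) θ).map_mul g g'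
    have h1 : ∀ x, Pool.Agent.H40LT.tprod (Pool.Agent.H40GO.tens V 1 a b 0) θ x =
        Matrix.of fun p q => (∏ s, V x (p.1.1 s) (q.1.1 s)) * (∏ t, V x⁻¹ (q.1.2 t) (p.1.2 t)) * θ x p.2 q.2 := by
      intro x
      ext p q
      simp [Pool.Agent.H40LT.tprod, Pool.Agent.H40GO.tens]
    rw [h1, h1, h1] at h
    exact h

/-- The direct sum of `V` and `r`. -/
def directSum {Γ E : Type} [Group Γ] [Field E] {N n : ℕ} (V : Γ →* Matrix (Fin N) (Fin N) E)
    (r : Γ →* Matrix (Fin n) (Fin n) E) : Γ →* Matrix (Fin N ⊕ Fin n) (Fin N ⊕ Fin n) E where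
  toFun g := Matrix.fromBlocks (V g) 0 0 (r g)
  map_one' := by rw [map_one, map_one, Matrix.fromBlocks_one]
  map_mul' g g' := by
    rw [Matrix.fromBlocks_multiply, map_mul, map_mul]
    simp

variable {ℓ : ℕ} [Fact ℓ.Prime] {E : IntermediateField ℚ_[ℓ] (PadicAlgCl ℓ)}

/-- The monodromy of `T` is connected: every polynomial over the algebraic closure of `ℚ_ℓ` in the entries of the
matrices which vanishes on an open subgroup vanishes on the whole group.  So the image of every open subgroup has the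
same Zariski closure. -/
def HasConnectedMonodromy {Γ I : Type} [Group Γ] [TopologicalSpace Γ] [Fintype I] [DecidableEq I]
    (T : Γ →* Matrix I I E) : Prop :=
  ∀ D : Subgroup Γ, IsOpen (D : Set Γ) → ∀ P : MvPolynomial (I × I) (PadicAlgCl ℓ),
    (∀ x ∈ D, MvPolynomial.eval (fun q => (T x q.1 q.2 : PadicAlgCl ℓ)) P = 0) →
    ∀ x, MvPolynomial.eval (fun q => (T x q.1 q.2 : PadicAlgCl ℓ)) P = 0

/-- A set of elements of the compact group `Γ` is small if it is contained in a closed set of Haar measure zero which is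
stable under conjugation. -/
def IsSmall {Γ : Type} [Group Γ] [TopologicalSpace Γ] [IsTopologicalGroup Γ] [CompactSpace Γ] [MeasurableSpace Γ]
    [BorelSpace Γ] (A : Set Γ) : Prop :=
  ∃ Z : Set Γ, IsClosed Z ∧ Measure.haar Z = 0 ∧ (∀ x ∈ Z, ∀ τ, τ * x * τ⁻¹ ∈ Z) ∧ A ⊆ Z

/-- `r` comes from `V`, up to a twist with finite image: it is a subquotient of the tensor product of copies of `V`, of
its dual and of a continuous representation with finite image. -/
def ComesFrom {Γ : Type} [Group Γ] [TopologicalSpace Γ] {N n : ℕ} (V : Γ →* Matrix (Fin N) (Fin N) E)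
    (r : Γ →* Matrix (Fin n) (Fin n) E) : Prop :=
  ∃ (a b d : ℕ) (θ : Γ →* Matrix (Fin d) (Fin d) E), Continuous θ ∧ (Set.range θ).Finite ∧
    IsSubquotient (tensorRep V a b θ) r

/-- The eigenvalues of the matrix `M` over `E` in the algebraic closure of `ℚ_ℓ`, with their (algebraic)
multiplicities. -/
noncomputable def eigenvalues {n : ℕ} (M : Matrix (Fin n) (Fin n) E) : Multiset (PadicAlgCl ℓ) :=
  (M.charpoly.map (algebraMap E (PadicAlgCl ℓ))).roots

/-- `z` is the product of a root of unity and of a quotient of products of eigenvalues of `M`. -/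
def IsGood {N : ℕ} (M : Matrix (Fin N) (Fin N) E) (z : PadicAlgCl ℓ) : Prop :=
  ∃ ζ w : PadicAlgCl ℓ, (∃ d : ℕ, 0 < d ∧ ζ ^ d = 1) ∧ z = ζ * w ∧
    ∃ (a b : ℕ) (α : Fin a → PadicAlgCl ℓ) (β : Fin b → PadicAlgCl ℓ),
      (∀ i, α i ∈ eigenvalues M) ∧ (∀ j, β j ∈ eigenvalues M) ∧ w * ∏ j, β j = ∏ i, α i

/-- `z` is the geometric mean of two eigenvalues of `M`, up to sign, which are not of the form considered in `IsGood`,
for the matrix `W`. -/
def IsMeanOfOthers {n N : ℕ} (W : Matrix (Fin N) (Fin N) E) (M : Matrix (Fin n) (Fin n) E)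
    (z : PadicAlgCl ℓ) : Prop :=
  ∃ x ∈ eigenvalues M, ∃ y ∈ eigenvalues M, ¬ IsGood W x ∧ ¬ IsGood W y ∧ x * y = z ^ 2

/-- For some multiplicative function `ν` on the algebraic closure of `ℚ_ℓ`, with real values which are positive except at
zero (for example an absolute value), all the eigenvalues `z` of `M` where `ν` takes its largest value are of the form
considered in `IsGood`, for the matrix `W`. -/
def ExtremalAreGood {n N : ℕ} (W : Matrix (Fin N) (Fin N) E) (M : Matrix (Fin n) (Fin n) E) : Prop :=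
  ∃ ν : PadicAlgCl ℓ →*₀ NNReal, ∀ z ∈ eigenvalues M, (∀ y ∈ eigenvalues M, ν y ≤ ν z) → IsGood W z

/-- `z` is algebraic over `ℚ`, of degree at most `m`; every complex conjugate of `z` has absolute value `q ^ (w / 2)`
for some integer `w`, `|w| ≤ k`; for every prime number `p`, every conjugate `x` of `z` in an algebraic closure of `ℚ_p`
satisfies `|x| ^ m = |q| ^ a` for some integer `a`, `|a| ≤ k`. -/
def IsFrobeniusNumber (m k q : ℕ) (z : PadicAlgCl ℓ) : Prop :=
  IsAlgebraic ℚ z ∧ (minpoly ℚ z).natDegree ≤ m ∧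
  (∀ x : ℂ, (minpoly ℚ z).eval₂ (Rat.castHom ℂ) x = 0 → ∃ w : ℤ, |w| ≤ k ∧ ‖x‖ ^ 2 = (q : ℝ) ^ w) ∧
  ∀ (p : ℕ) [Fact p.Prime] (x : PadicAlgCl p), (minpoly ℚ z).eval₂ (Rat.castHom (PadicAlgCl p)) x = 0 →
    ∃ a : ℤ, |a| ≤ k ∧ ‖x‖ ^ m = ‖(q : PadicAlgCl p)‖ ^ a

/-- For some integer `q`, at least two, all the eigenvalues of `W` and of `M` are as in `IsFrobeniusNumber`. -/
def HaveFrobeniusEigenvalues {n N : ℕ} (m k : ℕ) (W : Matrix (Fin N) (Fin N) E) (M : Matrix (Fin n) (Fin n) E) :
    Prop :=
  ∃ q : ℕ, 2 ≤ q ∧ (∀ z ∈ eigenvalues W, IsFrobeniusNumber m k q z) ∧ ∀ z ∈ eigenvalues M, IsFrobeniusNumber m k q z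

/-- **Theorem.** Let `Γ` be a compact group, `V` and `r` continuous representations of `Γ` over a subfield `E` of the
algebraic closure of `ℚ_ℓ`, with `r` irreducible.  There is an open normal subgroup `D` of `Γ`, equal to `Γ` if the
monodromy of the direct sum of `V` and `r` is connected, with the following property.  If `r` comes from `V`, up to a
twist with finite image, all the eigenvalues of `r s` are products of a root of unity and of integral powers of
eigenvalues of `V s`, for all `s` in `Γ`.  Otherwise, for all `m`, `k`, the set of the `s` in `D` such that the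
eigenvalues of `V s` and `r s` are Frobenius numbers (bounded by `m`, `k`) and some eigenvalue of `r s` is such a
product, and is not the geometric mean of two eigenvalues of `r s` which are not, is contained in a closed set of Haar
measure zero stable under conjugation.  So is the set of the `s` in `D` such that the eigenvalues of `V s` and `r s` are
Frobenius numbers (bounded by `m`, `k`) and all the eigenvalues of `r s` which are largest, for some absolute value, are
such products. -/
theorem result (ℓ : ℕ) [Fact ℓ.Prime] (E : IntermediateField ℚ_[ℓ] (PadicAlgCl ℓ))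
    (Γ : Type) [Group Γ] [TopologicalSpace Γ] [IsTopologicalGroup Γ] [CompactSpace Γ] [MeasurableSpace Γ]
    [BorelSpace Γ] (N n : ℕ) (V : Γ →* Matrix (Fin N) (Fin N) E) (hV : Continuous V)
    (r : Γ →* Matrix (Fin n) (Fin n) E) (hr : Continuous r) (hirr : IsIrreducible r) :
    ∃ D : Subgroup Γ, D.Normal ∧ IsOpen (D : Set Γ) ∧ (HasConnectedMonodromy (directSum V r) → D = ⊤) ∧
      (ComesFrom V r → ∀ s, ∀ z ∈ eigenvalues (r s), IsGood (V s) z) ∧
      (¬ ComesFrom V r → ∀ m k : ℕ,
        IsSmall {s | s ∈ D ∧ HaveFrobeniusEigenvalues m k (V s) (r s) ∧ ∃ z ∈ eigenvalues (r s), IsGood (V s) z ∧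
          ¬ IsMeanOfOthers (V s) (r s) z} ∧
        IsSmall {s | s ∈ D ∧ HaveFrobeniusEigenvalues m k (V s) (r s) ∧ ExtremalAreGood (V s) (r s)}) := by
  classical
  have hFG : Continuous (algebraMap E (PadicAlgCl ℓ)) := continuous_subtype_val
  have hT : ∀ (a b d : ℕ) (θ : Γ →* Matrix (Fin d) (Fin d) E),
      tensorRep V a b θ = Pool.Agent.H40LT.tprod (Pool.Agent.H40GO.tens V 1 a b 0) θ := by
    intro a b d θ
    ext x p q
    simp [tensorRep, Pool.Agent.H40LT.tprod, Pool.Agent.H40GO.tens]
  have hgeo : ComesFrom V r ↔ Pool.Agent.H40LT.Geo V r := by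
    unfold ComesFrom Pool.Agent.H40LT.Geo
    simp only [hT]
    rfl
  have hev : ∀ {m : ℕ} (U : Γ →* Matrix (Fin m) (Fin m) E) (σ : Γ),
      eigenvalues (U σ) = (Pool.Agent.H40GO.bc (PadicAlgCl ℓ) U σ).charpoly.roots := by
    intro m U σ
    rw [Pool.Agent.H40GO.bc_charpoly]
    rfl
  have hroot : ∀ {m : ℕ} (U : Γ →* Matrix (Fin m) (Fin m) E) (σ : Γ) (w : PadicAlgCl ℓ),
      w ∈ eigenvalues (U σ) ↔ (Pool.Agent.H40GO.bc (PadicAlgCl ℓ) U σ).charpoly.IsRoot w := by
    intro m U σ w
    rw [hev, Polynomial.mem_roots (Matrix.charpoly_monic _).ne_zero]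
  have hgood : ∀ (B : ℕ) (σ : Γ) (z : PadicAlgCl ℓ), (∃ ζ w : PadicAlgCl ℓ, (∃ d : ℕ, 0 < d ∧ d ≤ B ∧ ζ ^ d = 1) ∧
      z = ζ * w ∧ ∃ a ≤ B, ∃ b ≤ B, ∃ (α : Fin a → PadicAlgCl ℓ) (β : Fin b → PadicAlgCl ℓ),
        (∀ i, α i ∈ eigenvalues (V σ)) ∧ (∀ j, β j ∈ eigenvalues (V σ)) ∧ w * ∏ j, β j = ∏ i, α i) ↔
      Pool.Agent.H40LT.Good (Pool.Agent.H40GO.bc (PadicAlgCl ℓ) V) B σ z := by
    intro B σ z
    unfold Pool.Agent.H40LT.Good
    simp only [Pool.Agent.H40GO.bigPoly_root, hroot]
  have hof : ∀ (B : ℕ) (σ : Γ) (z : PadicAlgCl ℓ),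
      Pool.Agent.H40LT.Good (Pool.Agent.H40GO.bc (PadicAlgCl ℓ) V) B σ z → IsGood (V σ) z := by
    intro B σ z h
    obtain ⟨ζ, w, ⟨d, hd, -, hζ⟩, hz, a, -, b, -, α, β, h1⟩ := (hgood B σ z).2 h
    exact ⟨ζ, w, ⟨d, hd, hζ⟩, hz, a, b, α, β, h1⟩
  obtain ⟨D, hD1, hD2, hD3, hD4, hD5⟩ := Pool.Agent.H60OE.mean_main (G := PadicAlgCl ℓ) hFG Measure.haar V hV r hr
    ⟨⟨⟨0, hirr.1⟩⟩, hirr.2⟩
  refine ⟨D, hD1, hD2, fun h => hD3 ?_, ?_, ?_⟩
  · intro D hD _ P hP x _
    exact h D hD P hP x
  · intro h
    obtain ⟨B, hB⟩ := hD4 (hgeo.1 h)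
    exact fun s z hz => hof B s z (hB s z ((hroot r s z).1 hz))
  · intro h m k
    obtain ⟨B, hB⟩ := Pool.Agent.H60OE.frob_uniform (PadicAlgCl ℓ) m k N
    obtain ⟨Z, hZ1, hZ2, hZ3, hZ4⟩ := hD5 (fun h' => h (hgeo.2 h')) B
    have hto : ∀ s, HaveFrobeniusEigenvalues m k (V s) (r s) → ∀ z ∈ eigenvalues (r s), IsGood (V s) z →
        Pool.Agent.H40LT.Good (Pool.Agent.H40GO.bc (PadicAlgCl ℓ) V) B s z := by
      rintro s ⟨q, hq, hqV, hqr⟩ z hz ⟨ζ, w, hζ, hzw, a, b, α, β, hα, hβ, hw⟩
      have hcard : Multiset.card (eigenvalues (V s)) = N := by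
        rw [hev, IsAlgClosed.card_roots_eq_natDegree, Matrix.charpoly_natDegree_eq_dim, Fintype.card_fin]
      obtain ⟨x, hx⟩ := Pool.Agent.H60OE.exists_enum (eigenvalues (V s)) N hcard
      rw [← hgood]
      obtain ⟨ζ', w', h1, h2, a', h3, b', h4, α', β', h5, h6, h7⟩ := hB q hq x z (hqr z hz)
        (fun i => hqV _ ((hx _).2 ⟨i, rfl⟩)) ⟨ζ, w, hζ, hzw, a, b, α, β, fun i => (hx _).1 (hα i),
          fun i => (hx _).1 (hβ i), hw⟩
      exact ⟨ζ', w', h1, h2, a', h3, b', h4, α', β', fun i => (hx _).2 (h5 i), fun i => (hx _).2 (h6 i), h7⟩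
    have key : ∀ s ∈ D, s ∉ Z → HaveFrobeniusEigenvalues m k (V s) (r s) → ∀ z ∈ eigenvalues (r s),
        IsGood (V s) z → IsMeanOfOthers (V s) (r s) z := by
      intro s hs hsZ hf z hz hm
      obtain ⟨y, y', h1, h2, h3, h4, h5⟩ := hZ4 s hs hsZ z ((hroot r s z).1 hz) (hto s hf z hz hm)
      exact ⟨y, (hroot r s y).2 h1, y', (hroot r s y').2 h2, fun h => h3 (hto s hf y ((hroot r s y).2 h1) h),
        fun h => h4 (hto s hf y' ((hroot r s y').2 h2) h), h5⟩
    refine ⟨⟨Z, hZ1, hZ2, hZ3, ?_⟩, ⟨Z, hZ1, hZ2, hZ3, ?_⟩⟩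
    · rintro s ⟨hs, hf, z, hz, hm, hi⟩
      by_contra hsZ
      exact hi (key s hs hsZ hf z hz hm)
    · rintro s ⟨hs, hf, ν, hν⟩
      by_contra hsZ
      have hne : (eigenvalues (r s)).toFinset.Nonempty := by
        obtain ⟨w, hw⟩ := IsAlgClosed.exists_root (Pool.Agent.H40GO.bc (PadicAlgCl ℓ) r s).charpoly (by
          rw [Matrix.charpoly_degree_eq_dim, Fintype.card_fin]
          exact_mod_cast hirr.1.ne')
        exact ⟨w, Multiset.mem_toFinset.2 ((hroot r s w).2 hw)⟩
      obtain ⟨z, hz, hmax⟩ := Finset.exists_max_image _ (fun w => ν w) hne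
      rw [Multiset.mem_toFinset] at hz
      have hmax' : ∀ y ∈ eigenvalues (r s), ν y ≤ ν z := fun y hy => hmax y (Multiset.mem_toFinset.2 hy)
      have hz0 : z ≠ 0 := by
        rintro rfl
        have h0 := (hroot r s 0).1 hz
        have hdet : (Pool.Agent.H40GO.bc (PadicAlgCl ℓ) r s).det = 0 := by
          rw [Matrix.det_eq_sign_charpoly_coeff, Polynomial.coeff_zero_eq_eval_zero]
          rw [Polynomial.IsRoot.def] at h0
          rw [h0, mul_zero]
        have h1 : (Pool.Agent.H40GO.bc (PadicAlgCl ℓ) r s).det * (Pool.Agent.H40GO.bc (PadicAlgCl ℓ) r s⁻¹).det = 1 := by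
          rw [← Matrix.det_mul, ← map_mul, mul_inv_cancel, map_one, Matrix.det_one]
        rw [hdet, zero_mul] at h1
        exact zero_ne_one h1
      obtain ⟨x, hx, y, hy, hxm, hym, hxy⟩ := key s hs hsZ hf z hz (hν z hz hmax')
      have hνz : 0 < ν z := by
        rw [pos_iff_ne_zero]
        exact (map_ne_zero ν).2 hz0
      have h1 : ν x * ν y = ν z * ν z := by
        rw [← map_mul, hxy, pow_two, map_mul]
      have hx1 : ν z ≤ ν x := by
        by_contra hlt
        push Not at hlt
        have h2 : ν x * ν y < ν z * ν z := by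
          calc ν x * ν y ≤ ν x * ν z := mul_le_mul_right (hmax' y hy) _
            _ < ν z * ν z := mul_lt_mul_of_pos_right hlt hνz
        exact h2.ne h1
      exact hxm (hν x hx fun w hw => (hmax' w hw).trans hx1)

end Pool.Agent.Results.MP_80bee4_ag.OneEigenvalue
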