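import Mathlib
import Pool.Agent.H40LT.Null2
import Pool.Agent.H40LT.Dense

/-!
# The part of a lisse sheaf which comes from a given variety

Let `X` be a smooth irreducible variety over a finite field, `K` its function field, `V` a Tate twist of the cohomology
of an algebraic variety over `K`, and `H` the representation given by a lisse sheaf on `X`.  Both are representations of
the compact group `Γ = π₁(U)` for a dense open subset `U` of `X`.  Let `r` be the sum of the ranks of the composition
factors of `H` which come from `V`, up to a twist with finite image: they are subquotients of the tensor products of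
copies of `V`, of its dual and of a representation with finite image.  We show that `r` of the Frobenius eigenvalues of
`H` are products of roots of unity of bounded order and of quotients of products of boundedly many Frobenius eigenvalues
of `V`, and that after a finite étale covering of `U` (none, if the monodromy is connected), for the closed points
outside a set of density zero, at most one third of the others are of this form.
-/

set_option autoImplicit false

namespace Pool.Agent.Results.MP_80bee4_ag.OneThirdOfEigenvalues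

open Matrix MeasureTheory

/-- A representation in matrices is irreducible: its dimension is positive, and it has no stable subspace other than
zero and the whole space. -/
def IsIrreducible {Γ E : Type} [Group Γ] [Field E] {n : ℕ} (ρ : Γ →* Matrix (Fin n) (Fin n) E) : Prop :=
  0 < n ∧ ∀ U : Submodule E (Fin n → E), (∀ g, ∀ u ∈ U, ρ g *ᵥ u ∈ U) → U = ⊥ ∨ U = ⊤

/-- `ρ` is isomorphic to a subquotient of `T`: there are a stable subspace `U` of `T` and an equivariant linear
surjection from `U` to `ρ`. -/
def IsSubquotient {Γ E I : Type} [Group Γ] [Field E] [Fintype I] [DecidableEq I] {n : ℕ}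
    (T : Γ →* Matrix I I E) (ρ : Γ →* Matrix (Fin n) (Fin n) E) : Prop :=
  ∃ (U : Submodule E (I → E)) (π : U →ₗ[E] (Fin n → E)), Function.Surjective π ∧
    ∀ (g : Γ) (u : U), ∃ h : T g *ᵥ (u : I → E) ∈ U, π ⟨T g *ᵥ (u : I → E), h⟩ = ρ g *ᵥ π u

/-- The tensor product of `a` copies of `V`, `b` copies of its dual and of `θ`, in the coordinates given by the standard
basis. -/
def tensorRep {Γ E : Type} [Group Γ] [Field E] {N d : ℕ} (V : Γ →* Matrix (Fin N) (Fin N) E) (a b : ℕ)
    (θ : Γ →* Matrix (Fin d) (Fin d) E) :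
    Γ →* Matrix (((Fin a → Fin N) × (Fin b → Fin N)) × Fin d) (((Fin a → Fin N) × (Fin b → Fin N)) × Fin d) E where
  toFun g := Matrix.of fun p q =>
    (∏ s, V g (p.1.1 s) (q.1.1 s)) * (∏ t, V g⁻¹ (q.1.2 t) (p.1.2 t)) * θ g p.2 q.2
  map_one' := by
    have h := (Pool.Agent.H40LT.tprod (Pool.Agent.H40GO.tens V 1 a b 0) θ).map_one
    rw [← h]
    ext p q
    simp [Pool.Agent.H40LT.tprod, Pool.Agent.H40GO.tens]
  map_mul' g g' := by
    have h := (Pool.Agent.H40LT.tprod (Pool.Agent.H40GO.tens V 1 a b 0) θ).map_mul g g'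
    have h1 : ∀ x, Pool.Agent.H40LT.tprod (Pool.Agent.H40GO.tens V 1 a b 0) θ x =
        Matrix.of fun p q => (∏ s, V x (p.1.1 s) (q.1.1 s)) * (∏ t, V x⁻¹ (q.1.2 t) (p.1.2 t)) * θ x p.2 q.2 := by
      intro x
      ext p q
      simp [Pool.Agent.H40LT.tprod, Pool.Agent.H40GO.tens]
    rw [h1, h1, h1] at h
    exact h

/-- The direct sum of `V` and of the representations `ρ j`. -/
def directSum {Γ E : Type} [Group Γ] [Field E] {N s : ℕ} {n : Fin s → ℕ} (V : Γ →* Matrix (Fin N) (Fin N) E)
    (ρ : ∀ j, Γ →* Matrix (Fin (n j)) (Fin (n j)) E) :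
    Γ →* Matrix (Fin N ⊕ Σ j, Fin (n j)) (Fin N ⊕ Σ j, Fin (n j)) E where
  toFun g := Matrix.fromBlocks (V g) 0 0 (Matrix.blockDiagonal' fun j => ρ j g)
  map_one' := by
    have h : Matrix.blockDiagonal' (fun j => ρ j 1) = 1 := (Pool.Agent.H40LT.blk ρ).map_one
    rw [map_one, h, Matrix.fromBlocks_one]
  map_mul' g g' := by
    have h : Matrix.blockDiagonal' (fun j => ρ j (g * g')) =
        Matrix.blockDiagonal' (fun j => ρ j g) * Matrix.blockDiagonal' (fun j => ρ j g') :=
      (Pool.Agent.H40LT.blk ρ).map_mul g g'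
    rw [Matrix.fromBlocks_multiply, map_mul, h]
    simp

variable {ℓ : ℕ} [Fact ℓ.Prime] {E : IntermediateField ℚ_[ℓ] (PadicAlgCl ℓ)}

/-- The monodromy of `T` is connected: every polynomial over the algebraic closure of `ℚ_ℓ` in the entries of the
matrices which vanishes on an open subgroup vanishes on the whole group.  So the image of every open subgroup has the
same Zariski closure. -/
def HasConnectedMonodromy {Γ I : Type} [Group Γ] [TopologicalSpace Γ] [Fintype I] [DecidableEq I]
    (T : Γ →* Matrix I I E) : Prop :=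
  ∀ D : Subgroup Γ, IsOpen (D : Set Γ) → ∀ P : MvPolynomial (I × I) (PadicAlgCl ℓ),
    (∀ x ∈ D, MvPolynomial.eval (fun q => (T x q.1 q.2 : PadicAlgCl ℓ)) P = 0) →
    ∀ x, MvPolynomial.eval (fun q => (T x q.1 q.2 : PadicAlgCl ℓ)) P = 0

/-- `ρ` comes from `V`, up to a twist with finite image: it is a subquotient of the tensor product of copies of `V`, of
its dual and of a continuous representation with finite image. -/
def ComesFrom {Γ : Type} [Group Γ] [TopologicalSpace Γ] {N n : ℕ} (V : Γ →* Matrix (Fin N) (Fin N) E)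
    (ρ : Γ →* Matrix (Fin n) (Fin n) E) : Prop :=
  ∃ (a b d : ℕ) (θ : Γ →* Matrix (Fin d) (Fin d) E), Continuous θ ∧ (Set.range θ).Finite ∧
    IsSubquotient (tensorRep V a b θ) ρ

/-- The eigenvalues of the matrix `M` over `E` in the algebraic closure of `ℚ_ℓ`, with their (algebraic)
multiplicities. -/
noncomputable def eigenvalues {n : ℕ} (M : Matrix (Fin n) (Fin n) E) : Multiset (PadicAlgCl ℓ) :=
  (M.charpoly.map (algebraMap E (PadicAlgCl ℓ))).roots

/-- `z` is a product of at most `B` eigenvalues of `M`, divided by a product of at most `B` eigenvalues of `M`. -/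
def IsMonomial {N : ℕ} (B : ℕ) (M : Matrix (Fin N) (Fin N) E) (z : PadicAlgCl ℓ) : Prop :=
  ∃ a ≤ B, ∃ b ≤ B, ∃ (α : Fin a → PadicAlgCl ℓ) (β : Fin b → PadicAlgCl ℓ),
    (∀ i, α i ∈ eigenvalues M) ∧ (∀ j, β j ∈ eigenvalues M) ∧ z * ∏ j, β j = ∏ i, α i

/-- `z` is the product of a root of unity of order at most `B` and of a quotient of products of at most `B` eigenvalues
of `M`. -/
def IsTwistedMonomial {N : ℕ} (B : ℕ) (M : Matrix (Fin N) (Fin N) E) (z : PadicAlgCl ℓ) : Prop :=
  ∃ ζ w : PadicAlgCl ℓ, (∃ d : ℕ, 0 < d ∧ d ≤ B ∧ ζ ^ d = 1) ∧ z = ζ * w ∧ IsMonomial B M w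

open scoped Classical in
/-- The number of the eigenvalues of `M'`, counted with multiplicity, which are products of a root of unity of order at
most `B` and of a quotient of products of at most `B` eigenvalues of `M`. -/
noncomputable def monomialCount {N b : ℕ} (B : ℕ) (M : Matrix (Fin N) (Fin N) E) (M' : Matrix (Fin b) (Fin b) E) : ℕ :=
  Multiset.card ((eigenvalues M').filter (IsTwistedMonomial B M))

open scoped Classical in
/-- **Theorem.** Let `Γ` be a compact group, `V` a continuous representation of `Γ` over `E` and `H` a representation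
with the composition factors `ρ j`, of dimensions `n j`: these are continuous irreducible representations such that the
characteristic polynomials of `H σ` are the products of those of the `ρ j σ`.  Let `r` be the sum of the `n j` such that
`ρ j` comes from `V`, up to a twist with finite image.  Then there is `B` such that `monomialCount B (V σ) (H σ) ≥ r` for
all `σ`; and there is an open normal subgroup `D` of `Γ`, equal to `Γ` if the monodromy of the direct sum of `V` and the
`ρ j` is connected, such that for every `B` there is a closed subset `Z` of Haar measure zero, stable under conjugation,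
such that for all `σ` which are in `D` and not in `Z` the number `monomialCount B (V σ) (H σ)` is at most `r` plus the
sum of the integral parts of `n j / 3` over the other `j`. -/
theorem result (ℓ : ℕ) [Fact ℓ.Prime] (E : IntermediateField ℚ_[ℓ] (PadicAlgCl ℓ))
    (Γ : Type) [Group Γ] [TopologicalSpace Γ] [IsTopologicalGroup Γ] [CompactSpace Γ] [MeasurableSpace Γ]
    [BorelSpace Γ] (N b s : ℕ)
    (V : Γ →* Matrix (Fin N) (Fin N) E) (hV : Continuous V) (H : Γ →* Matrix (Fin b) (Fin b) E) (n : Fin s → ℕ)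
    (ρ : ∀ j, Γ →* Matrix (Fin (n j)) (Fin (n j)) E) (hρ : ∀ j, Continuous (ρ j)) (hirr : ∀ j, IsIrreducible (ρ j))
    (hfac : ∀ σ, (H σ).charpoly = ∏ j, (ρ j σ).charpoly) :
    (∃ B, ∀ σ, (∑ j, if ComesFrom V (ρ j) then n j else 0) ≤ monomialCount B (V σ) (H σ)) ∧
    ∃ D : Subgroup Γ, D.Normal ∧ IsOpen (D : Set Γ) ∧ (HasConnectedMonodromy (directSum V ρ) → D = ⊤) ∧
      ∀ B, ∃ Z : Set Γ, IsClosed Z ∧ Measure.haar Z = 0 ∧ (∀ x ∈ Z, ∀ τ, τ * x * τ⁻¹ ∈ Z) ∧
        ∀ σ ∈ D, σ ∉ Z →
          monomialCount B (V σ) (H σ) ≤ ∑ j, if ComesFrom V (ρ j) then n j else n j / 3 := by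
  have hFG : Continuous (algebraMap E (PadicAlgCl ℓ)) := continuous_subtype_val
  have hT : ∀ (a b d : ℕ) (θ : Γ →* Matrix (Fin d) (Fin d) E),
      tensorRep V a b θ = Pool.Agent.H40LT.tprod (Pool.Agent.H40GO.tens V 1 a b 0) θ := by
    intro a b d θ
    ext x p q
    simp [tensorRep, Pool.Agent.H40LT.tprod, Pool.Agent.H40GO.tens]
  have hgeo : ∀ j, ComesFrom V (ρ j) ↔ Pool.Agent.H40LT.Geo V (ρ j) := by
    intro j
    unfold ComesFrom Pool.Agent.H40LT.Geo
    simp only [hT]
    rfl
  have hev : ∀ {m : ℕ} (U : Γ →* Matrix (Fin m) (Fin m) E) (σ : Γ),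
      eigenvalues (U σ) = (Pool.Agent.H40GO.bc (PadicAlgCl ℓ) U σ).charpoly.roots := by
    intro m U σ
    rw [Pool.Agent.H40GO.bc_charpoly]
    rfl
  have hgood : ∀ (B : ℕ) (σ : Γ) (z : PadicAlgCl ℓ), IsTwistedMonomial B (V σ) z ↔
      Pool.Agent.H40LT.Good (Pool.Agent.H40GO.bc (PadicAlgCl ℓ) V) B σ z := by
    intro B σ z
    have hroot : ∀ w, w ∈ eigenvalues (V σ) ↔ (Pool.Agent.H40GO.bc (PadicAlgCl ℓ) V σ).charpoly.IsRoot w := by
      intro w
      rw [hev, Polynomial.mem_roots (Matrix.charpoly_monic _).ne_zero]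
    unfold IsTwistedMonomial Pool.Agent.H40LT.Good IsMonomial
    simp only [Pool.Agent.H40GO.bigPoly_root, hroot]
  have hcount : ∀ (B : ℕ) (σ : Γ), monomialCount B (V σ) (H σ) = Multiset.card
      ((Pool.Agent.H40GO.bc (PadicAlgCl ℓ) H σ).charpoly.roots.filter
        (Pool.Agent.H40LT.Good (Pool.Agent.H40GO.bc (PadicAlgCl ℓ) V) B σ)) := by
    intro B σ
    unfold monomialCount
    rw [hev]
    exact congrArg _ (Multiset.filter_congr fun z _ => hgood B σ z)
  have hirr' : ∀ j, Pool.Agent.H40GO.Irr (ρ j) := fun j => ⟨⟨⟨0, (hirr j).1⟩⟩, (hirr j).2⟩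
  simp only [hcount, hgeo]
  obtain ⟨D, hD1, hD2, hD3, hD4⟩ := Pool.Agent.H40LT.geo_null (G := PadicAlgCl ℓ) hFG Measure.haar V hV H n ρ hρ hirr'
    hfac
  refine ⟨Pool.Agent.H40LT.multi_conv (G := PadicAlgCl ℓ) V H n ρ hfac, D, hD1, hD2, fun h => hD3 ?_, hD4⟩
  intro D hD _ P hP x _
  exact h D hD P hP x

end Pool.Agent.Results.MP_80bee4_ag.OneThirdOfEigenvalues
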